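import Pool.Agent.Helper6.TRI.GDefs

/-!
# TRI, S4: scalings
-/

set_option autoImplicit false

namespace Pool.Agent.TRI

open Module MvPolynomial

universe u

/-- the degree in the variables of the block `i` -/
private noncomputable def wt23 {q N : ℕ} (d : Fin q × Fin N →₀ ℕ) : Fin q →₀ ℕ :=
  Finsupp.equivFunOnFinite.symm fun i => ∑ j, d (i, j)

private theorem wt_apply23 {q N : ℕ} (d : Fin q × Fin N →₀ ℕ) (i : Fin q) : wt23 d i = ∑ j, d (i, j) := rfl

private theorem wt_scale23 {K : Type*} [Field K] {q N : ℕ} (d : Fin q × Fin N →₀ ℕ) (c : Fin q → K) (l : Fin q → Fin N → K) :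
    ∏ p : Fin q × Fin N, (c p.1 * l p.1 p.2) ^ d p = (∏ i, c i ^ wt23 d i) * ∏ p : Fin q × Fin N, l p.1 p.2 ^ d p := by
  have h1 : ∏ i, c i ^ wt23 d i = ∏ p : Fin q × Fin N, c p.1 ^ d p := by
    rw [Fintype.prod_prod_type]
    refine Finset.prod_congr rfl fun i _ => ?_
    rw [wt_apply23]
    exact (Finset.prod_pow_eq_pow_sum _ _ _).symm
  rw [h1, ← Finset.prod_mul_distrib]
  exact Finset.prod_congr rfl fun p _ => mul_pow _ _ _

private theorem wt_le23 {R : Type*} [CommSemiring R] {q N : ℕ} {P : MvPolynomial (Fin q × Fin N) R} {d : Fin q × Fin N →₀ ℕ}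
    (hd : d ∈ P.support) (i : Fin q) : wt23 d i ≤ P.totalDegree := by
  refine le_trans ?_ (le_totalDegree hd)
  rw [wt_apply23, Finsupp.sum_fintype _ _ (fun _ => rfl), Fintype.sum_prod_type]
  exact Finset.single_le_sum (f := fun i => ∑ j, d (i, j)) (fun _ _ => Nat.zero_le _) (Finset.mem_univ i)

theorem scal {k₀ : Type u} [Field k₀] [CharZero k₀] {q N : ℕ} (Φ₀ : MvPolynomial (Fin q × Fin N) k₀) (h : Φ₀ ≠ 0) :
    ∃ (Φ : MvPolynomial (Fin q × Fin N) k₀) (T : Finset (Fin q → ℕ)), Φ ≠ 0 ∧ (∀ t ∈ T, ∀ i, t i ≠ 0) ∧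
      ∀ (k : Type u) [Field k] [Algebra k₀ k] (l : Fin q → Fin N → k), aeval (fun p : Fin q × Fin N => l p.1 p.2) Φ ≠ 0 →
        (∀ c : Fin q → k, (∀ i, c i ≠ 0) → aeval (fun p : Fin q × Fin N => c p.1 * l p.1 p.2) Φ ≠ 0) ∧
        ∃ t ∈ T, aeval (fun p : Fin q × Fin N => (t p.1 : k) * l p.1 p.2) Φ₀ ≠ 0 := by
  classical
  obtain ⟨d₀, hd₀⟩ := MvPolynomial.exists_coeff_ne_zero h
  set T₀ := Φ₀.support.filter fun d => wt23 d = wt23 d₀ with hT
  set Φ : MvPolynomial (Fin q × Fin N) k₀ := ∑ d ∈ T₀, monomial d (coeff d Φ₀) with hΦ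
  have hae : ∀ (k : Type u) [Field k] [Algebra k₀ k] (f : Fin q × Fin N → k),
      aeval f Φ = ∑ d ∈ T₀, algebraMap k₀ k (coeff d Φ₀) * ∏ p, f p ^ d p := by
    intro k _ _ f
    rw [hΦ, map_sum]
    refine Finset.sum_congr rfl fun d _ => ?_
    rw [aeval_monomial, Finsupp.prod_fintype _ _ fun i => pow_zero _]
  have hae0 : ∀ (k : Type u) [Field k] [Algebra k₀ k] (f : Fin q × Fin N → k),
      aeval f Φ₀ = ∑ d ∈ Φ₀.support, algebraMap k₀ k (coeff d Φ₀) * ∏ p, f p ^ d p := by
    intro k _ _ f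
    rw [aeval_def, eval₂_eq']
  set M := Φ₀.totalDegree + 1 with hM
  refine ⟨Φ, Fintype.piFinset fun _ => Finset.Icc 1 M, ?_, ?_, ?_⟩
  · intro h1
    have h2 : coeff d₀ Φ = coeff d₀ Φ₀ := by
      rw [hΦ, coeff_sum, Finset.sum_eq_single d₀]
      · rw [coeff_monomial, if_pos rfl]
      · intro d _ hd
        rw [coeff_monomial, if_neg hd]
      · intro h3
        exfalso
        apply h3
        rw [hT, Finset.mem_filter]
        exact ⟨mem_support_iff.2 hd₀, rfl⟩
    rw [h1, coeff_zero] at h2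
    exact hd₀ h2.symm
  · intro t ht i
    have := Finset.mem_Icc.1 (Fintype.mem_piFinset.1 ht i)
    omega
  · intro k _ _ l hl
    refine ⟨fun c hc => ?_, ?_⟩
    · have h1 : aeval (fun p : Fin q × Fin N => c p.1 * l p.1 p.2) Φ =
          (∏ i, c i ^ wt23 d₀ i) * aeval (fun p : Fin q × Fin N => l p.1 p.2) Φ := by
        rw [hae, hae, Finset.mul_sum]
        refine Finset.sum_congr rfl fun d hd => ?_
        rw [wt_scale23 d c l, (Finset.mem_filter.1 hd).2]
        ring
      rw [h1]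
      exact mul_ne_zero (Finset.prod_ne_zero_iff.2 fun i _ => pow_ne_zero _ (hc i)) hl
    · have : CharZero k := charZero_of_injective_algebraMap (algebraMap k₀ k).injective
      set P : MvPolynomial (Fin q) k := ∑ d ∈ Φ₀.support,
        monomial (wt23 d) (algebraMap k₀ k (coeff d Φ₀) * ∏ p : Fin q × Fin N, l p.1 p.2 ^ d p) with hP
      have hP0 : P ≠ 0 := by
        intro h1
        have h2 : coeff (wt23 d₀) P = aeval (fun p : Fin q × Fin N => l p.1 p.2) Φ := by
          rw [hae, hP, coeff_sum, hT, Finset.sum_filter]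
          refine Finset.sum_congr rfl fun d _ => ?_
          rw [coeff_monomial]
        rw [h1, coeff_zero] at h2
        exact hl h2.symm
      have hP1 : ∀ t : Fin q → k, eval t P = aeval (fun p : Fin q × Fin N => t p.1 * l p.1 p.2) Φ₀ := by
        intro t
        rw [hae0, hP, map_sum]
        refine Finset.sum_congr rfl fun d _ => ?_
        rw [eval_monomial, Finsupp.prod_fintype _ _ fun i => pow_zero _, wt_scale23 d t l]
        ring
      have hP2 : ∀ i, P.degreeOf i < ((Finset.Icc 1 M).image (Nat.cast : ℕ → k)).card := by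
        intro i
        rw [Finset.card_image_of_injective _ Nat.cast_injective, Nat.card_Icc, degreeOf_lt_iff (by omega)]
        intro m hm
        have h1 : ∃ d ∈ Φ₀.support, wt23 d = m := by
          by_contra hcon
          push Not at hcon
          refine (mem_support_iff.1 hm) ?_
          rw [hP, coeff_sum]
          exact Finset.sum_eq_zero fun d hd => by rw [coeff_monomial, if_neg (hcon d hd)]
        obtain ⟨d, hd, rfl⟩ := h1
        have := wt_le23 hd i
        omega
      by_contra hcon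
      push Not at hcon
      refine hP0 (eq_zero_of_eval_zero_at_prod_finset P (fun _ => (Finset.Icc 1 M).image (Nat.cast : ℕ → k)) hP2 fun x hx => ?_)
      have h1 : ∀ i, ∃ t ∈ Finset.Icc 1 M, ((t : ℕ) : k) = x i := fun i => Finset.mem_image.1 (hx i)
      choose t ht htx using h1
      have h2 : x = fun i => ((t i : ℕ) : k) := funext fun i => (htx i).symm
      rw [h2, hP1]
      exact hcon t (Fintype.mem_piFinset.2 ht)

end Pool.Agent.TRI
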