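import Pool.Agent.Helper97.TRI.Adapted

/-!
# TRI, block B6: the sum of the slopes
-/

set_option autoImplicit false

namespace Pool.Agent.TRI

open Module Pool.Agent.SQ

section

variable {k E : Type*} [Field k] [Field E] [Algebra k E]

/-- the values on `V ^ m` -/
private theorem val_pow23 {V : Submodule k E} {ω : E → ℝ} (h : RV k ω) {c : ℝ} (hV : ∀ x ∈ V, x ≠ 0 → 0 ≤ ω x + c)
    (m : ℕ) : ∀ x ∈ V ^ m, x ≠ 0 → -(m * c) ≤ ω x := by
  have h1 : ω 1 = 0 := by
    have h2 := h.mul 1 1 one_ne_zero one_ne_zero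
    rw [mul_one] at h2
    linarith
  have key : ∀ m : ℕ, V ^ m ≤ lev h (-(m * c)) := by
    intro m
    induction m with
    | zero =>
      rw [pow_zero, Submodule.one_le]
      refine Or.inr ?_
      rw [h1]
      simp
    | succ m ih =>
      rw [pow_succ, Submodule.mul_le]
      intro x hx y hy
      by_cases hx0 : x = 0
      · rw [hx0, zero_mul]
        exact Submodule.zero_mem _
      by_cases hy0 : y = 0
      · rw [hy0, mul_zero]
        exact Submodule.zero_mem _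
      refine Or.inr ?_
      rw [h.mul x y hx0 hy0]
      have h3 := hV y hy hy0
      rcases ih hx with h4 | h4
      · exact absurd h4 hx0
      · push_cast
        linarith
  intro x hx hx0
  rcases key m hx with h4 | h4
  · exact absurd h4 hx0
  · exact h4

/-- `∑_{i < n} (B - γ ⌊i / f⌋)^+` -/
private theorem floor_sum23 {γ : ℝ} (hγ : 0 < γ) {f : ℕ} (hf : 0 < f) {B : ℝ} (hB : 0 ≤ B) (n : ℕ) :
    ∑ i : Fin n, max (B - γ * (((i : ℕ) / f : ℕ) : ℝ)) 0 ≤ f / (2 * γ) * (B + 2 * γ) ^ 2 := by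
  have hf' : (0 : ℝ) < f := by exact_mod_cast hf
  have hf1 : (1 : ℝ) ≤ f := by exact_mod_cast hf
  set s : ℝ := γ / f with hs
  have hs0 : 0 < s := div_pos hγ hf'
  have hsγ : s ≤ γ := by rw [hs, div_le_iff₀ hf']; nlinarith
  set u : ℕ → ℝ := fun i => max (B + γ + s - s * i) 0 with hu
  have h1 : ∀ i : ℕ, max (B - γ * ((i / f : ℕ) : ℝ)) 0 ≤ max (B + γ - s * i) 0 := by
    intro i
    refine max_le_max ?_ le_rfl
    have h2 : (i : ℝ) ≤ ((i / f : ℕ) : ℝ) * f + f := by
      have h3 := Nat.div_add_mod i f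
      have h4 := Nat.mod_lt i hf
      have h5 : i ≤ i / f * f + f := by
        have : f * (i / f) = i / f * f := mul_comm _ _
        omega
      exact_mod_cast h5
    have h6 : s * i ≤ γ * ((i / f : ℕ) : ℝ) + γ := by
      calc s * i ≤ s * (((i / f : ℕ) : ℝ) * f + f) := mul_le_mul_of_nonneg_left h2 hs0.le
        _ = γ * ((i / f : ℕ) : ℝ) + γ := by rw [hs]; field_simp
    linarith
  have h2 : ∀ i : ℕ, s * max (B + γ - s * i) 0 ≤ (u i ^ 2 - u (i + 1) ^ 2) / 2 := by
    intro i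
    have e1 : u (i + 1) = max (B + γ - s * i) 0 := by
      simp only [hu]
      congr 1
      push_cast
      ring
    rw [e1]
    simp only [hu]
    rcases le_total 0 (B + γ - s * i) with h3 | h3
    · rw [max_eq_left h3, max_eq_left (by linarith)]
      nlinarith [sq_nonneg s]
    · rw [max_eq_right h3]
      nlinarith [sq_nonneg (max (B + γ + s - s * i) 0)]
  have h3 : ∀ n : ℕ, s * ∑ i ∈ Finset.range n, max (B + γ - s * i) 0 ≤ (u 0 ^ 2 - u n ^ 2) / 2 := by
    intro n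
    induction n with
    | zero => simp
    | succ n ih =>
      rw [Finset.sum_range_succ, mul_add]
      have := h2 n
      linarith
  have h4 : ∑ i : Fin n, max (B - γ * (((i : ℕ) / f : ℕ) : ℝ)) 0 ≤ ∑ i ∈ Finset.range n, max (B + γ - s * i) 0 := by
    rw [← Fin.sum_univ_eq_sum_range (fun i => max (B + γ - s * (i : ℝ)) 0) n]
    exact Finset.sum_le_sum fun i _ => h1 i
  have h5 : u 0 = B + γ + s := by
    simp only [hu]
    rw [Nat.cast_zero, mul_zero, sub_zero]
    exact max_eq_left (by positivity)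
  have h6 := h3 n
  rw [h5] at h6
  have h7 : s * ∑ i : Fin n, max (B - γ * (((i : ℕ) / f : ℕ) : ℝ)) 0 ≤ (B + 2 * γ) ^ 2 / 2 := by
    calc s * ∑ i : Fin n, max (B - γ * (((i : ℕ) / f : ℕ) : ℝ)) 0
        ≤ s * ∑ i ∈ Finset.range n, max (B + γ - s * i) 0 := mul_le_mul_of_nonneg_left h4 hs0.le
      _ ≤ ((B + γ + s) ^ 2 - u n ^ 2) / 2 := h6
      _ ≤ (B + 2 * γ) ^ 2 / 2 := by nlinarith [sq_nonneg (u n)]
  have h8 : (f : ℝ) / (2 * γ) * (B + 2 * γ) ^ 2 = ((B + 2 * γ) ^ 2 / 2) / s := by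
    rw [hs]
    field_simp
  rw [h8, le_div_iff₀ hs0]
  linarith

/-- linear growth -/
private theorem lim23 {a b K : ℝ} (h : ∀ m : ℕ, 0 < m → a * m ≤ b * m + K) : a ≤ b := by
  by_contra hcon
  push Not at hcon
  obtain ⟨m, hm⟩ := exists_nat_gt (K / (a - b))
  have h1 : 0 < a - b := by linarith
  have h2 : K < m * (a - b) := (div_lt_iff₀ h1).1 hm
  have h3 := h (m + 1) (Nat.succ_pos m)
  push_cast at h3
  nlinarith

theorem sum_s {A : Type*} [Fintype A] {V : Submodule k E} [FiniteDimensional k V] {ω : A → E → ℝ} {c : A → ℝ} {r : ℕ} {h : ℝ}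
    (hD : Dat V ω c r h) (Z : Finset A) (γ : A → ℝ) (f : A → ℕ) (hZ : ∀ α ∈ Z, DVal k (ω α) (γ α) (f α)) {T : ℝ} (hT : T ∈ Gr V) :
    (∑ α ∈ Z, γ α / f α) * T ≤ 2 * r * h := by
  classical
  have hr : (0 : ℝ) < r := by exact_mod_cast hD.r0
  rcases Z.eq_empty_or_nonempty with hZ0 | ⟨α₀, hα₀⟩
  · rw [hZ0, Finset.sum_empty, zero_mul]
    have := hD.h0
    positivity
  obtain ⟨C, hC⟩ := hT
  set s : ℝ := ∑ α ∈ Z, γ α / f α with hs
  have hs0 : 0 ≤ s := Finset.sum_nonneg fun α hα => div_nonneg (hZ α hα).γ0.le (Nat.cast_nonneg _)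
  set G : ℝ := ∑ α ∈ Z, 2 * γ α with hG
  set F : ℝ := ∑ α ∈ Z, 2 * f α * γ α with hF
  have hF0 : 0 ≤ F := Finset.sum_nonneg fun α hα => by have := (hZ α hα).γ0; positivity
  refine lim23 (K := 2 * r * G + 2 * r ^ 2 * F + s * C) fun m hm => ?_
  obtain ⟨n, hn⟩ : ∃ n : ℕ, n = finrank k ↥(V ^ m) := ⟨_, rfl⟩
  have hn0 : 0 < n := by
    obtain ⟨x, hx, hx0, -⟩ := hD.eq α₀
    have h1 : V ^ m ≠ ⊥ := by
      intro h0
      have h2 := Submodule.pow_mem_pow V hx m
      rw [h0, Submodule.mem_bot] at h2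
      exact pow_ne_zero m hx0 h2
    have hfd : FiniteDimensional k ↥(V ^ m) :=
      (Submodule.fg_iff_finiteDimensional _).1 (((Submodule.fg_iff_finiteDimensional V).2 inferInstance).pow m)
    rw [hn]
    exact Nat.pos_of_ne_zero fun h0 => h1 (Submodule.finrank_eq_zero.1 h0)
  have hn' : (0 : ℝ) < n := by exact_mod_cast hn0
  have hn1 : (1 : ℝ) ≤ n := by exact_mod_cast hn0
  have hfd : FiniteDimensional k ↥(V ^ m) :=
    (Submodule.fg_iff_finiteDimensional _).1 (((Submodule.fg_iff_finiteDimensional V).2 inferInstance).pow m)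
  -- adapted bases
  have had : ∀ α ∈ Z, ∃ z : Fin n → E, LinearIndependent k z ∧ (∀ i, z i ∈ V ^ m) ∧
      ∀ i : Fin n, γ α * (((i : ℕ) / f α : ℕ) : ℝ) ≤ ω α (z i) + m * c α := by
    intro α hα
    obtain ⟨z, h1, h2, h3⟩ := adapted (hZ α hα) (V ^ m) (-(m * c α)) (val_pow23 (hD.rv α) (hD.ge α) m)
    subst hn
    exact ⟨z, h1, h2, fun i => by linarith [h3 i]⟩
  choose z hz1 hz2 hz3 using had
  set n' : A → ℕ := fun α => if α ∈ Z then n else 0 with hn'd
  have hz' : ∀ α, ∃ z' : Fin (n' α) → E, LinearIndependent k z' ∧ (∀ i, z' i ∈ V ^ m) ∧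
      (α ∈ Z → n' α = n ∧ ∀ i : Fin (n' α), γ α * (((i : ℕ) / f α : ℕ) : ℝ) ≤ ω α (z' i) + m * c α) := by
    intro α
    by_cases hα : α ∈ Z
    · have h1 : n' α = n := if_pos hα
      rw [h1]
      exact ⟨z α hα, hz1 α hα, hz2 α hα, fun _ => ⟨rfl, hz3 α hα⟩⟩
    · have h1 : n' α = 0 := if_neg hα
      rw [h1]
      exact ⟨Fin.elim0, linearIndependent_empty_type, fun i => i.elim0, fun h => absurd h hα⟩
  choose z' h1 h2 h3 using hz'
  set B : A → ℝ := fun α => if α ∈ Z then γ α * n / (f α * r) else 0 with hBd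
  have hB0 : ∀ α, 0 ≤ B α := by
    intro α
    simp only [hBd]
    split_ifs with hα
    · have := (hZ α hα).γ0
      positivity
    · exact le_rfl
  have h4 := hD.I3 m hm n' z' h1 h2 B hB0
  rw [← hn] at h4
  have h5 : ∀ α, (if α ∈ Z then γ α / f α * n ^ 2 / (2 * r ^ 2) - 2 * γ α * n / r - 2 * f α * γ α else 0) ≤
      ∑ i, min (B α) (ω α (z' α i) + m * c α) - (1 - 1 / (r : ℝ)) * B α * n := by
    intro α
    by_cases hα : α ∈ Z
    · rw [if_pos hα]
      obtain ⟨h6, h7⟩ := h3 α hα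
      have hγ := (hZ α hα).γ0
      have hf := (hZ α hα).f0
      have hf' : (0 : ℝ) < f α := by exact_mod_cast hf
      have hBα : B α = γ α * n / (f α * r) := if_pos hα
      have h8 : (n' α : ℝ) * B α - ∑ i : Fin (n' α), max (B α - γ α * (((i : ℕ) / f α : ℕ) : ℝ)) 0 ≤
          ∑ i, min (B α) (ω α (z' α i) + m * c α) := by
        have h9 : (n' α : ℝ) * B α = ∑ i : Fin (n' α), B α := by
          rw [Finset.sum_const, Finset.card_univ, Fintype.card_fin, nsmul_eq_mul]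
        rw [h9, ← Finset.sum_sub_distrib]
        refine Finset.sum_le_sum fun i _ => ?_
        have h10 := h7 i
        refine le_min ?_ ?_
        · linarith [le_max_right (B α - γ α * (((i : ℕ) / f α : ℕ) : ℝ)) 0]
        · linarith [le_max_left (B α - γ α * (((i : ℕ) / f α : ℕ) : ℝ)) 0]
      have h9 := floor_sum23 hγ hf (hB0 α) (n' α)
      have h6' : ((n' α : ℕ) : ℝ) = n := by rw [h6]
      rw [h6'] at h8
      have h10 : (n : ℝ) * B α - f α / (2 * γ α) * (B α + 2 * γ α) ^ 2 - (1 - 1 / (r : ℝ)) * B α * n =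
          γ α / f α * n ^ 2 / (2 * r ^ 2) - 2 * γ α * n / r - 2 * f α * γ α := by
        rw [hBα]
        field_simp
        ring
      rw [← h10]
      linarith
    · rw [if_neg hα]
      have h6 : n' α = 0 := if_neg hα
      have h7 : B α = 0 := if_neg hα
      have h8 : ∑ i, min (B α) (ω α (z' α i) + m * c α) = 0 := by
        have : IsEmpty (Fin (n' α)) := by rw [h6]; exact Fin.isEmpty
        exact Finset.sum_of_isEmpty _
      rw [h8, h7]
      simp
  have h6 := (Finset.sum_le_sum fun α (_ : α ∈ Finset.univ) => h5 α).trans h4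
  rw [← Finset.sum_filter, Finset.filter_mem_eq_inter, Finset.univ_inter, Finset.sum_sub_distrib, Finset.sum_sub_distrib] at h6
  have e1 : ∑ α ∈ Z, γ α / f α * (n : ℝ) ^ 2 / (2 * r ^ 2) = s * n ^ 2 / (2 * r ^ 2) := by
    rw [hs, Finset.sum_mul, Finset.sum_div]
  have e2 : ∑ α ∈ Z, 2 * γ α * (n : ℝ) / r = G * n / r := by
    rw [hG, Finset.sum_mul, Finset.sum_div]
  rw [e1, e2] at h6
  have h7 : s * n ≤ 2 * r * h * m + 2 * r * G + 2 * r ^ 2 * F := by
    have h8 : s * n ^ 2 / (2 * r ^ 2) ≤ n * m * h / r + G * n / r + F := by linarith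
    have h9 : s * n ^ 2 ≤ (n * m * h / r + G * n / r + F) * (2 * r ^ 2) := (div_le_iff₀ (by positivity)).1 h8
    have h10 : (n * m * h / r + G * n / r + F) * (2 * r ^ 2) = n * (2 * r * h * m + 2 * r * G) + 2 * r ^ 2 * F := by
      field_simp
    rw [h10] at h9
    have h11 : 2 * (r : ℝ) ^ 2 * F ≤ n * (2 * r ^ 2 * F) := by
      have : 0 ≤ 2 * (r : ℝ) ^ 2 * F := by positivity
      nlinarith
    have h12 : (n : ℝ) * (s * n) ≤ n * (2 * r * h * m + 2 * r * G + 2 * r ^ 2 * F) := by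
      calc (n : ℝ) * (s * n) = s * n ^ 2 := by ring
        _ ≤ n * (2 * r * h * m + 2 * r * G) + 2 * r ^ 2 * F := h9
        _ ≤ n * (2 * r * h * m + 2 * r * G) + n * (2 * r ^ 2 * F) := by linarith
        _ = _ := by ring
    exact le_of_mul_le_mul_left h12 hn'
  have h8 := hC m
  rw [← hn] at h8
  calc s * T * m = s * (T * m) := by ring
    _ ≤ s * (n + C) := mul_le_mul_of_nonneg_left h8 hs0
    _ = s * n + s * C := by ring
    _ ≤ _ := by linarith

end

end Pool.Agent.TRI
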