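import Pool.Agent.Helper29.TRI.VDefs

/-!
# TRI, V1: the Veronese surface
-/

set_option autoImplicit false

namespace Pool.Agent.TRI

open Module MvPolynomial

universe u

section

variable {k₀ : Type u} [Field k₀]

private theorem mon_hom23 {K : Type u} [Field K] {n : ℕ} (s : Multiset (Fin n)) :
    ((s.map (X : Fin n → MvPolynomial (Fin n) K)).prod).IsHomogeneous (Multiset.card s) := by
  induction s using Multiset.induction_on with
  | empty => simpa using isHomogeneous_one (Fin n) K
  | cons a s ih =>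
    rw [Multiset.map_cons, Multiset.prod_cons, Multiset.card_cons, add_comm]
    exact (isHomogeneous_X K a).mul ih

private theorem ver_hom23 {K : Type u} [Field K] {N N' d : ℕ} (e : Fin (N' + 1) ≃ Sym (Fin (N + 1)) d) (i : Fin (N' + 1)) :
    (ver e (X : Fin (N + 1) → MvPolynomial (Fin (N + 1)) K) i).IsHomogeneous d := by
  have h := mon_hom23 (K := K) (e i : Multiset (Fin (N + 1)))
  rwa [show Multiset.card (e i : Multiset (Fin (N + 1))) = d from (e i).2] at h

/-- the substitution `Y i ↦ X ^ (e i)` -/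
private noncomputable def sub23 (K : Type u) [Field K] {N N' d : ℕ} (e : Fin (N' + 1) ≃ Sym (Fin (N + 1)) d) :
    MvPolynomial (Fin (N' + 1)) K →ₐ[K] MvPolynomial (Fin (N + 1)) K := aeval (ver e X)

private theorem sub_comp23 {N N' d : ℕ} (hd : 1 ≤ d) (e : Fin (N' + 1) ≃ Sym (Fin (N + 1)) d)
    (p : MvPolynomial (Fin (N' + 1)) k₀) (m : ℕ) :
    homogeneousComponent (d * m) (sub23 k₀ e p) = sub23 k₀ e (homogeneousComponent m p) := by
  classical
  have h1 : ∀ i, homogeneousComponent (d * m) (sub23 k₀ e (homogeneousComponent i p)) =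
      if i = m then sub23 k₀ e (homogeneousComponent m p) else 0 := by
    intro i
    have h2 : (sub23 k₀ e (homogeneousComponent i p)).IsHomogeneous (d * i) :=
      (homogeneousComponent_isHomogeneous i p).aeval _ (ver_hom23 e)
    have h3 := homogeneousComponent_of_mem (m := d * m) ((mem_homogeneousSubmodule _ _).2 h2)
    rw [h3]
    by_cases h : i = m
    · rw [if_pos h, if_pos (by rw [h]), h]
    · rw [if_neg h, if_neg (fun h' => h (Nat.eq_of_mul_eq_mul_left hd h'.symm))]
  conv_lhs => rw [← sum_homogeneousComponent p]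
  rw [map_sum, map_sum, Finset.sum_congr rfl fun i _ => h1 i, Finset.sum_ite_eq']
  split_ifs with h
  · rfl
  · rw [Finset.mem_range, not_lt] at h
    rw [homogeneousComponent_eq_zero m p (by omega), map_zero]

/-! ### base change -/

section

variable {K : Type u} [Field K] [Algebra k₀ K] {n : ℕ}

/-- coefficientwise application of a linear functional -/
private noncomputable def cf23 (f : K →ₗ[k₀] k₀) (p : MvPolynomial (Fin n) K) : MvPolynomial (Fin n) k₀ :=
  ∑ m ∈ p.support, monomial m (f (coeff m p))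

private theorem coeff_cf23 (f : K →ₗ[k₀] k₀) (p : MvPolynomial (Fin n) K) (m : Fin n →₀ ℕ) :
    coeff m (cf23 f p) = f (coeff m p) := by
  classical
  rw [cf23, coeff_sum]
  simp_rw [coeff_monomial]
  rw [Finset.sum_ite_eq']
  split_ifs with h
  · rfl
  · rw [notMem_support_iff.1 h, map_zero]

private theorem cf_add23 (f : K →ₗ[k₀] k₀) (p q : MvPolynomial (Fin n) K) : cf23 f (p + q) = cf23 f p + cf23 f q := by
  ext m
  rw [coeff_cf23, coeff_add, coeff_add, map_add, coeff_cf23, coeff_cf23]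

private theorem cf_zero23 (f : K →ₗ[k₀] k₀) : cf23 f (0 : MvPolynomial (Fin n) K) = 0 := by
  ext m
  rw [coeff_cf23, coeff_zero, coeff_zero, map_zero]

private theorem cf_mul23 (f : K →ₗ[k₀] k₀) (p : MvPolynomial (Fin n) K) (g : MvPolynomial (Fin n) k₀) :
    cf23 f (p * MvPolynomial.map (algebraMap k₀ K) g) = cf23 f p * g := by
  classical
  ext m
  rw [coeff_cf23, coeff_mul, coeff_mul, map_sum]
  refine Finset.sum_congr rfl fun a _ => ?_
  rw [coeff_map, coeff_cf23, mul_comm, ← Algebra.smul_def, map_smul, smul_eq_mul, mul_comm]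

private theorem cf_mon23 (f : K →ₗ[k₀] k₀) (a : Fin n →₀ ℕ) (c : K) (p : MvPolynomial (Fin n) K) :
    cf23 f (monomial a c * p) = monomial a 1 * cf23 (f ∘ₗ LinearMap.mulLeft k₀ c) p := by
  classical
  ext m
  rw [coeff_cf23, coeff_monomial_mul', coeff_monomial_mul']
  split_ifs with h
  · rw [coeff_cf23, one_mul]
    rfl
  · exact map_zero f

private theorem cf_mem23 {I : Ideal (MvPolynomial (Fin n) k₀)} {q : MvPolynomial (Fin n) K}
    (hq : q ∈ I.map (MvPolynomial.map (algebraMap k₀ K))) : ∀ f : K →ₗ[k₀] k₀, cf23 f q ∈ I := by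
  refine Submodule.span_induction (p := fun x _ => ∀ f : K →ₗ[k₀] k₀, cf23 f x ∈ I) ?_ ?_ ?_ ?_ hq
  · rintro x ⟨g, hg, rfl⟩ f
    have h := cf_mul23 f 1 g
    rw [one_mul] at h
    rw [h]
    exact I.mul_mem_left _ hg
  · intro f
    rw [cf_zero23]
    exact I.zero_mem
  · intro x y _ _ hx hy f
    rw [cf_add23]
    exact I.add_mem (hx f) (hy f)
  · intro a x _ hx f
    rw [smul_eq_mul]
    induction a using MvPolynomial.induction_on' with
    | monomial a c =>
      rw [cf_mon23]
      exact I.mul_mem_left _ (hx _)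
    | add p q hp hq =>
      rw [add_mul, cf_add23]
      exact I.add_mem hp hq

private theorem mem_cf23 {J : Ideal (MvPolynomial (Fin n) k₀)} (p : MvPolynomial (Fin n) K)
    (hp : ∀ f : K →ₗ[k₀] k₀, cf23 f p ∈ J) : p ∈ J.map (MvPolynomial.map (algebraMap k₀ K)) := by
  classical
  let b := Basis.ofVectorSpace k₀ K
  let T : Finset (Basis.ofVectorSpaceIndex k₀ K) := p.support.biUnion fun m => (b.repr (coeff m p)).support
  have h1 : p = ∑ t ∈ T, C (b t) * MvPolynomial.map (algebraMap k₀ K) (cf23 (b.coord t) p) := by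
    ext m
    rw [coeff_sum]
    simp_rw [coeff_C_mul, coeff_map, coeff_cf23]
    by_cases hm : m ∈ p.support
    · have h2 : (b.repr (coeff m p)).support ⊆ T := fun t ht => Finset.mem_biUnion.2 ⟨m, hm, ht⟩
      have h3 := b.linearCombination_repr (coeff m p)
      rw [Finsupp.linearCombination_apply, Finsupp.sum_of_support_subset _ h2 (fun i a => a • b i) (fun t _ => zero_smul _ _)] at h3
      conv_lhs => rw [← h3]
      refine Finset.sum_congr rfl fun t _ => ?_
      rw [Algebra.smul_def, mul_comm]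
      rfl
    · rw [notMem_support_iff.1 hm]
      simp
  rw [h1]
  exact Ideal.sum_mem _ fun t _ => Ideal.mul_mem_left _ _ (Ideal.mem_map_of_mem _ (hp _))

end

private theorem sub_map23 {K : Type u} [Field K] [Algebra k₀ K] {N N' d : ℕ} (e : Fin (N' + 1) ≃ Sym (Fin (N + 1)) d)
    (g : MvPolynomial (Fin (N' + 1)) k₀) :
    sub23 K e (MvPolynomial.map (algebraMap k₀ K) g) = MvPolynomial.map (algebraMap k₀ K) (sub23 k₀ e g) := by
  have h : (sub23 K e).toRingHom.comp (MvPolynomial.map (algebraMap k₀ K)) =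
      (MvPolynomial.map (algebraMap k₀ K)).comp (sub23 k₀ e).toRingHom := by
    refine MvPolynomial.ringHom_ext (fun c => ?_) fun i => ?_
    · simp [sub23]
    · simp only [sub23, AlgHom.toRingHom_eq_coe, RingHom.comp_apply, RingHom.coe_coe, map_X, aeval_X, ver]
      rw [map_multiset_prod, Multiset.map_map]
      congr 1
      exact Multiset.map_congr rfl fun j _ => (map_X _ j).symm
  exact congrArg (fun φ => φ g) h

private theorem sub_cf23 {K : Type u} [Field K] [Algebra k₀ K] {N N' d : ℕ} (e : Fin (N' + 1) ≃ Sym (Fin (N + 1)) d)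
    (f : K →ₗ[k₀] k₀) (p : MvPolynomial (Fin (N' + 1)) K) : cf23 f (sub23 K e p) = sub23 k₀ e (cf23 f p) := by
  induction p using MvPolynomial.induction_on' with
  | monomial a c =>
    have h1 : (monomial a c : MvPolynomial (Fin (N' + 1)) K) =
        C c * MvPolynomial.map (algebraMap k₀ K) (monomial a 1) := by
      rw [map_monomial, map_one, C_mul_monomial, mul_one]
    have h2 : ∀ n : ℕ, cf23 (n := n) f (C c) = C (f c) := by
      intro n
      ext m
      classical
      rw [coeff_cf23, coeff_C, coeff_C]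
      split_ifs
      · rfl
      · exact map_zero f
    have h3 : sub23 K e (C c) = C c := by simp [sub23]
    have h4 : sub23 k₀ e (C (f c)) = C (f c) := by simp [sub23]
    rw [h1, map_mul, h3, sub_map23, cf_mul23, cf_mul23, h2, h2, map_mul, h4]
  | add p q hp hq => rw [map_add, cf_add23, cf_add23, map_add, hp, hq]

/-! ### linear forms -/

/-- the class of the combination of the monomials -/
private noncomputable def lin23 {n M : ℕ} (I : Ideal (MvPolynomial (Fin n) k₀)) (s : Fin M → Multiset (Fin n)) :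
    (Fin M → k₀) →ₗ[k₀] MvPolynomial (Fin n) k₀ ⧸ I :=
  ((Ideal.Quotient.mkₐ k₀ I).toLinearMap) ∘ₗ (Fintype.linearCombination k₀ fun i => ((s i).map X).prod)

private theorem lin_apply23 {n M : ℕ} (I : Ideal (MvPolynomial (Fin n) k₀)) (s : Fin M → Multiset (Fin n)) (m : Fin M → k₀) :
    lin23 I s m = Ideal.Quotient.mk I (∑ i, C (m i) * ((s i).map X).prod) := by
  simp only [lin23, LinearMap.comp_apply, Fintype.linearCombination_apply, AlgHom.toLinearMap_apply, Ideal.Quotient.mkₐ_eq_mk]
  congr 1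
  exact Finset.sum_congr rfl fun i _ => by rw [MvPolynomial.smul_eq_C_mul]

private theorem ran_lin23 {n M : ℕ} (I : Ideal (MvPolynomial (Fin n) k₀)) (s : Fin M → Multiset (Fin n)) :
    LinearMap.range (lin23 I s) = Submodule.span k₀ (Set.range fun i => Ideal.Quotient.mk I ((s i).map X).prod) := by
  rw [lin23, LinearMap.range_comp, Fintype.range_linearCombination, Submodule.map_span, ← Set.range_comp]
  rfl

private theorem plane_iff23 {n M : ℕ} (I : Ideal (MvPolynomial (Fin n) k₀)) (s : Fin (M + 1) → Multiset (Fin n))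
    (J : Ideal (MvPolynomial (Fin (M + 1)) k₀))
    (h : ∀ m : Fin (M + 1) → k₀, ∑ j, C (m j) * X j ∈ J ↔ ∑ i, C (m i) * ((s i).map X).prod ∈ I) :
    Plane J ↔ finrank k₀ (LinearMap.range (lin23 I s)) = 3 := by
  have h1 : linI J = LinearMap.ker (lin23 I s) := by
    ext m
    rw [LinearMap.mem_ker, lin_apply23, Ideal.Quotient.eq_zero_iff_mem, ← h]
    rfl
  have h2 := LinearMap.finrank_range_add_finrank_ker (lin23 I s)
  rw [← h1, Module.finrank_fin_fun] at h2
  unfold Plane
  omega

/-- forms of degree `d` -/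
private theorem four23 {N d M : ℕ} (hd : 2 ≤ d) {I : Ideal (MvPolynomial (Fin (N + 1)) k₀)} (hX : Surf I)
    (e : Fin M ≃ Sym (Fin (N + 1)) d) : 4 ≤ finrank k₀ (LinearMap.range (lin23 I fun i => (e i : Multiset (Fin (N + 1))))) := by
  classical
  have := hX.prime
  have hdom : IsDomain (MvPolynomial (Fin (N + 1)) k₀ ⧸ I) := Ideal.Quotient.isDomain I
  set B := MvPolynomial (Fin (N + 1)) k₀ ⧸ I with hB
  let x : Fin (N + 1) → B := fun j => Ideal.Quotient.mk I (X j)
  have h0 : Algebra.adjoin k₀ (Set.range x) = ⊤ := by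
    have h1 : (Ideal.Quotient.mkₐ k₀ I).range = ⊤ := (AlgHom.range_eq_top _).2 (Ideal.Quotient.mkₐ_surjective k₀ I)
    rw [← h1, ← Algebra.map_top, ← MvPolynomial.adjoin_range_X, AlgHom.map_adjoin, ← Set.range_comp]
    rfl
  have h1 : Algebra.IsAlgebraic (Algebra.adjoin k₀ (Set.range x)) B := by
    rw [h0]
    refine ⟨fun b => ?_⟩
    exact isAlgebraic_algebraMap (⟨b, trivial⟩ : (⊤ : Subalgebra k₀ B))
  obtain ⟨t, ht, htb⟩ := exists_isTranscendenceBasis_subset (R := k₀) (Set.range x)
  have h2 : Cardinal.mk t = 3 := by rw [htb.cardinalMk_eq_trdeg]; exact hX.tr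
  obtain ⟨σ'⟩ : Nonempty (t ≃ Fin 3) := Cardinal.mk_eq_nat_iff.1 (by rw [h2]; rfl)
  let σ : Fin 3 ≃ t := σ'.symm
  have hy : AlgebraicIndependent k₀ fun a : Fin 3 => ((σ a : t) : B) := htb.1.comp σ σ.injective
  have hj : ∀ a : Fin 3, ∃ j, x j = ((σ a : t) : B) := fun a => ht (σ a).2
  choose j hj using hj
  -- four monomials of degree `d`
  let w : Fin 4 → Fin 3 →₀ ℕ := ![Finsupp.single 0 d, Finsupp.single 0 (d - 1) + Finsupp.single 1 1,
    Finsupp.single 0 (d - 1) + Finsupp.single 2 1, Finsupp.single 0 (d - 2) + Finsupp.single 1 2]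
  have hw : Function.Injective w := by
    have e1 : ∀ a, w a 1 = ![0, 1, 0, 2] a := by
      intro a
      fin_cases a <;> simp [w]
    have e2 : ∀ a, w a 2 = ![0, 0, 1, 0] a := by
      intro a
      fin_cases a <;> simp [w]
    intro a b hab
    have f1 : (![0, 1, 0, 2] : Fin 4 → ℕ) a = (![0, 1, 0, 2] : Fin 4 → ℕ) b := by rw [← e1, ← e1, hab]
    have f2 : (![0, 0, 1, 0] : Fin 4 → ℕ) a = (![0, 0, 1, 0] : Fin 4 → ℕ) b := by rw [← e2, ← e2, hab]
    revert f1 f2
    fin_cases a <;> fin_cases b <;> simp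
  have hdeg : ∀ a, Multiset.card (Finsupp.toMultiset (w a)) = d := by
    intro a
    rw [Finsupp.card_toMultiset]
    have : ∀ v : Fin 3 →₀ ℕ, (v.sum fun _ => id) = v 0 + v 1 + v 2 := by
      intro v
      rw [Finsupp.sum_fintype _ _ (fun _ => rfl), Fin.sum_univ_three]
      rfl
    rw [this]
    fin_cases a <;> simp [w] <;> omega
  let v : Fin 4 → B := fun a => aeval (fun a : Fin 3 => ((σ a : t) : B)) (monomial (w a) (1 : k₀))
  have hv : LinearIndependent k₀ v := by
    have l1 : LinearIndependent k₀ fun a => (monomial (w a) (1 : k₀) : MvPolynomial (Fin 3) k₀) := by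
      have := (MvPolynomial.basisMonomials (Fin 3) k₀).linearIndependent.comp w hw
      simpa [MvPolynomial.coe_basisMonomials, Function.comp_def] using this
    exact l1.map' (aeval (fun a : Fin 3 => ((σ a : t) : B))).toLinearMap (LinearMap.ker_eq_bot.2 hy)
  have hvr : ∀ a, v a ∈ LinearMap.range (lin23 I fun i => (e i : Multiset (Fin (N + 1)))) := by
    intro a
    rw [ran_lin23]
    let z : Sym (Fin (N + 1)) d := Sym.mk ((Finsupp.toMultiset (w a)).map j) (by rw [Multiset.card_map]; exact hdeg a)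
    refine Submodule.subset_span ⟨e.symm z, ?_⟩
    · show Ideal.Quotient.mk I (((e (e.symm z) : Multiset (Fin (N + 1))).map X).prod) = v a
      rw [Equiv.apply_symm_apply]
      show Ideal.Quotient.mk I ((((Finsupp.toMultiset (w a)).map j).map X).prod) = v a
      rw [map_multiset_prod, Multiset.map_map, Multiset.map_map]
      show _ = aeval (fun a : Fin 3 => ((σ a : t) : B)) (monomial (w a) (1 : k₀))
      rw [aeval_monomial, map_one, one_mul, Finsupp.prod, Finset.prod_multiset_map_count, Finsupp.toFinset_toMultiset]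
      refine Finset.prod_congr rfl fun c _ => ?_
      rw [Finsupp.count_toMultiset, ← hj c]
      rfl
  have hfin : LinearIndependent k₀ fun a => (⟨v a, hvr a⟩ : LinearMap.range (lin23 I fun i => (e i : Multiset (Fin (N + 1))))) :=
    LinearIndependent.of_comp (Submodule.subtype _) hv
  simpa using hfin.fintype_card_le_finrank

end

theorem ver_surf {k₀ : Type u} [Field k₀] [CharZero k₀] {N d : ℕ} (hd : 1 ≤ d) {I : Ideal (MvPolynomial (Fin (N + 1)) k₀)} (hX : Surf I) :
    ∃ (N' : ℕ) (e : Fin (N' + 1) ≃ Sym (Fin (N + 1)) d) (I' : Ideal (MvPolynomial (Fin (N' + 1)) k₀)), Surf I' ∧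
      (2 ≤ d → ¬ Plane I') ∧ (d = 1 → (Plane I' ↔ Plane I)) ∧
      ∀ (K : Type u) [Field K] [Algebra k₀ K] (x : Fin (N + 1) → K), OnX I x → OnX I' (ver e x) := by
  classical
  have := hX.prime
  have hdom : IsDomain (MvPolynomial (Fin (N + 1)) k₀ ⧸ I) := Ideal.Quotient.isDomain I
  obtain ⟨N', hN'⟩ : ∃ N', Fintype.card (Sym (Fin (N + 1)) d) = N' + 1 :=
    ⟨_, (Nat.succ_pred_eq_of_pos (Fintype.card_pos_iff.2 ⟨Sym.replicate d 0⟩)).symm⟩
  let e : Fin (N' + 1) ≃ Sym (Fin (N + 1)) d := (Fintype.equivFinOfCardEq hN').symm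
  let I' : Ideal (MvPolynomial (Fin (N' + 1)) k₀) := I.comap (sub23 k₀ e)
  have hI' : ∀ p, p ∈ I' ↔ sub23 k₀ e p ∈ I := fun p => Iff.rfl
  have hprime : I'.IsPrime := Ideal.comap_isPrime _ _
  have hlin : ∀ m : Fin (N' + 1) → k₀, ∑ j, C (m j) * X j ∈ I' ↔
      ∑ i, C (m i) * ((e i : Multiset (Fin (N + 1))).map X).prod ∈ I := by
    intro m
    rw [hI', map_sum]
    have : ∀ j, sub23 k₀ e (C (m j) * X j) = C (m j) * ((e j : Multiset (Fin (N + 1))).map X).prod := by
      intro j
      simp [sub23, ver]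
    simp_rw [this]
  refine ⟨N', e, I', ⟨?_, hprime, ?_, ?_⟩, ?_, ?_, ?_⟩
  · intro p hp m
    rw [hI', ← sub_comp23 hd]
    exact hX.hom _ ((hI' p).1 hp) _
  · -- the transcendence degree
    let ψ : (MvPolynomial (Fin (N' + 1)) k₀ ⧸ I') →ₐ[k₀] (MvPolynomial (Fin (N + 1)) k₀ ⧸ I) :=
      Ideal.quotientMapₐ I (sub23 k₀ e) le_rfl
    have hψ : Function.Injective ψ := Ideal.quotientMap_injective
    let _ : Algebra (MvPolynomial (Fin (N' + 1)) k₀ ⧸ I') (MvPolynomial (Fin (N + 1)) k₀ ⧸ I) := ψ.toRingHom.toAlgebra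
    have hst : IsScalarTower k₀ (MvPolynomial (Fin (N' + 1)) k₀ ⧸ I') (MvPolynomial (Fin (N + 1)) k₀ ⧸ I) :=
      IsScalarTower.of_algebraMap_eq fun c => (ψ.commutes c).symm
    have hA : IsDomain (MvPolynomial (Fin (N' + 1)) k₀ ⧸ I') := Ideal.Quotient.isDomain I'
    have hf1 : FaithfulSMul (MvPolynomial (Fin (N' + 1)) k₀ ⧸ I') (MvPolynomial (Fin (N + 1)) k₀ ⧸ I) :=
      (faithfulSMul_iff_algebraMap_injective _ _).2 hψ
    have hx : ∀ j : Fin (N + 1), IsIntegral (MvPolynomial (Fin (N' + 1)) k₀ ⧸ I') (Ideal.Quotient.mk I (X j)) := by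
      intro j
      refine IsIntegral.of_pow (n := d) hd ?_
      have h1 : Ideal.Quotient.mk I (X j) ^ d = algebraMap (MvPolynomial (Fin (N' + 1)) k₀ ⧸ I') _
          (Ideal.Quotient.mk I' (X (e.symm (Sym.replicate d j)))) := by
        show _ = Ideal.Quotient.mk I (sub23 k₀ e (X (e.symm (Sym.replicate d j))))
        rw [sub23, aeval_X, ver, Equiv.apply_symm_apply, Sym.coe_replicate, Multiset.map_replicate, Multiset.prod_replicate,
          map_pow]
      rw [h1]
      exact isIntegral_algebraMap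
    have hint : ∀ b : MvPolynomial (Fin (N + 1)) k₀ ⧸ I, IsIntegral (MvPolynomial (Fin (N' + 1)) k₀ ⧸ I') b := by
      intro b
      obtain ⟨p, rfl⟩ := Ideal.Quotient.mk_surjective b
      induction p using MvPolynomial.induction_on with
      | C a =>
        have h1 : Ideal.Quotient.mk I (C a) = algebraMap (MvPolynomial (Fin (N' + 1)) k₀ ⧸ I') _ (algebraMap k₀ _ a) := by
          rw [← IsScalarTower.algebraMap_apply]
          rfl
        rw [h1]
        exact isIntegral_algebraMap
      | add p q hp hq => rw [map_add]; exact hp.add hq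
      | mul_X p j hp => rw [map_mul]; exact hp.mul (hx j)
    have hI : Algebra.IsIntegral (MvPolynomial (Fin (N' + 1)) k₀ ⧸ I') (MvPolynomial (Fin (N + 1)) k₀ ⧸ I) := ⟨hint⟩
    have halg : Algebra.IsAlgebraic (MvPolynomial (Fin (N' + 1)) k₀ ⧸ I') (MvPolynomial (Fin (N + 1)) k₀ ⧸ I) :=
      Algebra.IsIntegral.isAlgebraic
    have h2 := trdeg_add_eq k₀ (MvPolynomial (Fin (N' + 1)) k₀ ⧸ I') (A := MvPolynomial (Fin (N + 1)) k₀ ⧸ I)
    rw [trdeg_eq_zero (R := MvPolynomial (Fin (N' + 1)) k₀ ⧸ I') (A := MvPolynomial (Fin (N + 1)) k₀ ⧸ I), add_zero, hX.tr] at h2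
    exact h2
  · -- geometrically prime
    intro K _ _
    have hK := hX.geo K
    have h1 : I'.map (MvPolynomial.map (algebraMap k₀ K)) =
        (I.map (MvPolynomial.map (algebraMap k₀ K))).comap (sub23 K e) := by
      refine le_antisymm ?_ fun p hp => mem_cf23 p fun f => ?_
      · rw [Ideal.map_le_iff_le_comap]
        intro g hg
        rw [Ideal.mem_comap, Ideal.mem_comap, sub_map23]
        exact Ideal.mem_map_of_mem _ ((hI' g).1 hg)
      · rw [hI', ← sub_cf23]
        exact cf_mem23 hp f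
    rw [h1]
    exact Ideal.comap_isPrime _ _
  · intro hd2 hP
    have h1 := (plane_iff23 I (fun i => (e i : Multiset (Fin (N + 1)))) I' hlin).1 hP
    have h2 := four23 hd2 hX e
    omega
  · intro hd1
    subst hd1
    have hP1 := plane_iff23 I (fun i => (e i : Multiset (Fin (N + 1)))) I' hlin
    have hP2 := plane_iff23 I (fun j => ({j} : Multiset (Fin (N + 1)))) I fun m => by simp
    rw [hP1, hP2, ran_lin23, ran_lin23]
    have h3 : (Set.range fun i => Ideal.Quotient.mk I (((e i : Multiset (Fin (N + 1))).map X).prod)) =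
        Set.range fun j => Ideal.Quotient.mk I ((({j} : Multiset (Fin (N + 1))).map X).prod) := by
      ext b
      constructor
      · rintro ⟨i, rfl⟩
        obtain ⟨j, hj⟩ := Multiset.card_eq_one.1 (e i).2
        exact ⟨j, by simp only; rw [← hj]; rfl⟩
      · rintro ⟨j, rfl⟩
        let z : Sym (Fin (N + 1)) 1 := Sym.mk {j} (Multiset.card_singleton j)
        refine ⟨e.symm z, ?_⟩
        show Ideal.Quotient.mk I (((e (e.symm z) : Multiset (Fin (N + 1))).map X).prod) = _
        rw [Equiv.apply_symm_apply]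
        rfl
    rw [h3]
  · intro K _ _ x hx g hg
    have h1 : aeval (ver e x) g = aeval x (sub23 k₀ e g) := by
      have h2 : (aeval (ver e x) : MvPolynomial (Fin (N' + 1)) k₀ →ₐ[k₀] K) = (aeval x).comp (sub23 k₀ e) := by
        refine MvPolynomial.algHom_ext fun i => ?_
        rw [AlgHom.comp_apply, sub23, aeval_X, aeval_X, ver, ver, map_multiset_prod, Multiset.map_map]
        congr 1
        exact Multiset.map_congr rfl fun j _ => (aeval_X _ j).symm
      rw [h2, AlgHom.comp_apply]
    rw [h1]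
    exact hx _ ((hI' g).1 hg)

end Pool.Agent.TRI
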